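import Mathlib
import Pool.Agent.Q15.IZDefs
import Pool.Agent.Q15.IZN.A1
import Pool.Agent.Q15.IZN.A2
import Pool.Agent.Q15.IZN.A3

namespace Pool.Agent.Results.MP_be65b5_al.NeutralAtoms

open Q15IZ

/-- In the lattice of varieties of implication zroupoids `ZM` is neutral, `SL` is not neutral and
`BA` is not neutral; a distributive law fails for `SL`, and `BA` lies in a pentagon. -/
theorem result :
    IsNeutral ZM ∧
    (¬ IsNeutral SL ∧ ∃ Y Z : Variety, ¬ (SL ⊔ Y) ⊓ (SL ⊔ Z) ≤ SL ⊔ (Y ⊓ Z)) ∧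
    (¬ IsNeutral BA ∧ ∃ Y Z : Variety, Y < Z ∧ BA ⊓ Y = BA ⊓ Z ∧ BA ⊔ Y = BA ⊔ Z) := by
  refine ⟨zm_neutral, ⟨sl_not_neutral, Y1, Z1, sl_not_dist⟩, ba_not_neutral, Y2, Z2,
    lt_of_le_not_ge Y2_le_Z2 Z2_not_le_Y2, ?_, ?_⟩
  · exact le_antisymm (inf_le_inf_left _ Y2_le_Z2) (le_inf inf_le_left BA_inf_Z2)
  · exact le_antisymm (sup_le_sup_left Y2_le_Z2 _) (sup_le le_sup_left Z2_le)

end Pool.Agent.Results.MP_be65b5_al.NeutralAtoms
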